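import Mathlib

set_option autoImplicit false
open scoped Classical ComplexConjugate
open MeasureTheory Filter Topology

namespace Pool.Agent.H.MP_90e10c_an

noncomputable def E (x : ℝ) : ℂ := Complex.exp (-2 * Real.pi * Complex.I * x)

theorem E_add (x y : ℝ) : E (x + y) = E x * E y := by
  unfold E; rw [← Complex.exp_add]; congr 1; push_cast; ring

theorem E_zero : E 0 = 1 := by simp [E]

theorem E_eq (x : ℝ) : E x = Complex.exp (Complex.I * (-2 * Real.pi * x : ℝ)) := by
  unfold E; congr 1; push_cast; ring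

theorem E_norm (x : ℝ) : ‖E x‖ = 1 := by rw [E_eq]; exact Complex.norm_exp_I_mul_ofReal _

theorem E_conj (x : ℝ) : conj (E x) = E (-x) := by
  unfold E; rw [← Complex.exp_conj]; congr 1; simp [map_ofNat]

theorem E_one_iff (x : ℝ) : E x = 1 ↔ ∃ n : ℤ, x = n := by
  unfold E
  rw [Complex.exp_eq_one_iff]
  have hp : (2 * Real.pi * Complex.I : ℂ) ≠ 0 := Complex.two_pi_I_ne_zero
  constructor
  · rintro ⟨n, hn⟩
    refine ⟨-n, ?_⟩
    have : (x : ℂ) = ((-n : ℤ) : ℂ) := by
      apply mul_left_cancel₀ hp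
      push_cast
      linear_combination -hn
    exact_mod_cast this
  · rintro ⟨n, rfl⟩
    exact ⟨-n, by push_cast; ring⟩

theorem E_int (n : ℤ) : E n = 1 := (E_one_iff _).2 ⟨n, rfl⟩

theorem E_sub_one (x : ℝ) : ‖E x - 1‖ ≤ 7 * |x| := by
  rw [E_eq]
  refine Real.norm_exp_I_mul_ofReal_sub_one_le.trans ?_
  rw [Real.norm_eq_abs, abs_mul, abs_mul, abs_of_pos Real.pi_pos]
  have := Real.pi_lt_d2
  have := abs_nonneg x
  simp only [abs_neg, Nat.abs_ofNat]
  nlinarith

@[fun_prop] theorem E_cont : Continuous E := by unfold E; fun_prop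

theorem E_nat_mul (n : ℕ) (x : ℝ) : E (n * x) = E x ^ n := by
  induction n with
  | zero => simp [E_zero]
  | succ n ih => push_cast; rw [add_mul, one_mul, E_add, ih, pow_succ]

def B : ℕ → ℕ
  | 0 => 1
  | k + 1 => B k * (k + 2) * (k + 2)

theorem B_pos (k : ℕ) : 0 < B k := by
  induction k with
  | zero => simp [B]
  | succ k ih => simp only [B]; positivity

theorem B_dvd {k m : ℕ} (h : k ≤ m) : B k ∣ B m := by
  induction h with
  | refl => rfl
  | step _ ih => exact ih.trans ⟨_, by simp only [B]; rw [mul_assoc]⟩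

theorem Bq_dvd {k m : ℕ} (h : k < m) : B k * (k + 2) ∣ B m :=
  (Dvd.intro _ rfl : B k * (k + 2) ∣ B (k + 1)).trans (B_dvd h)

theorem B_grow (m i : ℕ) : B m * 2 ^ i ≤ B (m + i) := by
  induction i with
  | zero => simp
  | succ i ih =>
    show _ ≤ B (m + i) * (m + i + 2) * (m + i + 2)
    rw [pow_succ, ← mul_assoc, mul_assoc (B (m + i))]
    exact Nat.mul_le_mul ih (by nlinarith)

abbrev X : Type := (k : ℕ) → ZMod (k + 2)

noncomputable def P : Measure X := Measure.addHaarMeasure ⊤

instance : IsProbabilityMeasure P := ⟨by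
  have := Measure.addHaarMeasure_self (G := X) (K₀ := ⊤)
  unfold P
  simpa using this⟩

instance : P.IsAddLeftInvariant := by unfold P; infer_instance

noncomputable def tm (k : ℕ) (d : X) : ℝ := ((d k).val : ℝ) / (B k * (k + 2))

theorem tm_nonneg (k : ℕ) (d : X) : 0 ≤ tm k d := by unfold tm; positivity

theorem tm_le (k : ℕ) (d : X) : tm k d ≤ 1 / B k := by
  unfold tm
  have h1 : ((d k).val : ℝ) ≤ k + 2 := by exact_mod_cast (ZMod.val_lt (d k)).le
  have h2 : (0 : ℝ) < B k := by exact_mod_cast B_pos k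
  rw [div_le_div_iff₀ (by positivity) h2]
  nlinarith

theorem tm_le' (m i : ℕ) (d : X) : tm (m + i) d ≤ (1 / B m) * (1 / 2) ^ i := by
  refine (tm_le _ _).trans ?_
  have h1 : (B m : ℝ) * 2 ^ i ≤ B (m + i) := by exact_mod_cast B_grow m i
  have h2 : (0 : ℝ) < B m := by exact_mod_cast B_pos m
  rw [one_div_pow, one_div_mul_one_div]
  exact one_div_le_one_div_of_le (by positivity) h1

@[fun_prop] theorem tm_cont (k : ℕ) : Continuous (tm k) :=
  (continuous_of_discreteTopology (f := fun z : ZMod (k + 2) => (z.val : ℝ) / (B k * (k + 2)))).comp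
    (continuous_apply k)

noncomputable def T (m : ℕ) (d : X) : ℝ := ∑' i, tm (m + i) d

theorem geo (m : ℕ) : HasSum (fun i : ℕ => (1 / B m : ℝ) * (1 / 2) ^ i) (1 / B m * 2) :=
  hasSum_geometric_two.mul_left _

theorem T_summ (m : ℕ) (d : X) : Summable fun i => tm (m + i) d :=
  Summable.of_nonneg_of_le (fun _ => tm_nonneg _ _) (fun i => tm_le' m i d) (geo m).summable

@[fun_prop] theorem T_cont (m : ℕ) : Continuous (T m) :=
  continuous_tsum (fun _ => tm_cont _) (geo m).summable fun i d => by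
    rw [Real.norm_of_nonneg (tm_nonneg _ _)]; exact tm_le' m i d

theorem T_nonneg (m : ℕ) (d : X) : 0 ≤ T m d := tsum_nonneg fun _ => tm_nonneg _ _

theorem T_le (m : ℕ) (d : X) : T m d ≤ 2 / B m := by
  have := hasSum_le (fun i => tm_le' m i d) (T_summ m d).hasSum (geo m)
  unfold T
  linarith [show (1 / B m * 2 : ℝ) = 2 / B m by ring]

theorem T_succ (m : ℕ) (d : X) : T m d = tm m d + T (m + 1) d := by
  unfold T
  rw [(T_summ m d).tsum_eq_zero_add]
  simp only [add_zero, add_assoc, add_comm 1]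

noncomputable def S (m : ℕ) (d : X) : ℝ := ∑ k ∈ Finset.range m, tm k d

@[fun_prop] theorem S_cont (m : ℕ) : Continuous (S m) :=
  continuous_finsetSum _ fun k _ => tm_cont k

theorem T_zero (m : ℕ) (d : X) : T 0 d = S m d + T m d := by
  induction m with
  | zero => simp [S]
  | succ m ih => rw [ih, T_succ m]; unfold S; rw [Finset.sum_range_succ, add_assoc]

theorem tm_single {k j : ℕ} (h : j ≠ k) (c : ZMod (k + 2)) (d : X) :
    tm j (Pi.single k c + d) = tm j d := by
  unfold tm; rw [Pi.add_apply, Pi.single_eq_of_ne h, zero_add]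

theorem T_single {k m : ℕ} (h : k < m) (c : ZMod (k + 2)) (d : X) :
    T m (Pi.single k c + d) = T m d := by
  unfold T; congr 1; ext i; exact tm_single (by omega) c d

theorem S_single {k m : ℕ} (h : k < m) (c : ZMod (k + 2)) (d : X) :
    S m (Pi.single k c + d) = S m d + (tm k (Pi.single k c + d) - tm k d) := by
  unfold S
  rw [← Finset.add_sum_erase _ _ (Finset.mem_range.2 h), ← Finset.add_sum_erase _ (tm · d)
    (Finset.mem_range.2 h), Finset.sum_congr rfl
      (fun j hj => tm_single (Finset.ne_of_mem_erase hj) c d)]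
  ring

theorem step (k : ℕ) (u : ℤ) (d : X) :
    E (B k * u * (tm k (Pi.single k 1 + d) - tm k d)) = E (u / (k + 2)) := by
  have h2 : (0 : ℝ) < B k := by exact_mod_cast B_pos k
  have h1 := Nat.div_add_mod ((1 : ZMod (k + 2)).val + (d k).val) (k + 2)
  rw [← ZMod.val_add, ZMod.val_one'' (by omega)] at h1
  obtain ⟨j, hj⟩ : ∃ j, j = (1 + (d k).val) / (k + 2) := ⟨_, rfl⟩
  rw [← hj] at h1
  have h3 : (((1 + d k).val : ℕ) : ℝ) = 1 + (d k).val - (k + 2) * j := by
    have : ((k + 2 : ℝ)) * j + ((1 + d k).val : ℕ) = 1 + (d k).val := by exact_mod_cast h1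
    linarith
  have : B k * u * (tm k (Pi.single k 1 + d) - tm k d) = u / (k + 2) + ((-(u * j) : ℤ) : ℝ) := by
    unfold tm
    rw [Pi.add_apply, Pi.single_eq_same, h3]
    push_cast
    field_simp
    ring
  rw [this, E_add, E_int, mul_one]

theorem vanish {k m : ℕ} (hk : k < m) (u : ℤ) (hu : ¬ ((k + 2 : ℕ) : ℤ) ∣ u) (h : X → ℂ)
    (hh : ∀ d, h (Pi.single k 1 + d) = h d) : ∫ d, E (B k * u * S m d) * h d ∂P = 0 := by
  have h1 := integral_add_left_eq_self (μ := P) (fun d => E (B k * u * S m d) * h d)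
    (Pi.single k 1)
  simp only [hh, S_single hk, mul_add, E_add, step] at h1
  have h2 : E (u / (k + 2)) ≠ 1 := by
    rw [Ne, E_one_iff]
    rintro ⟨n, hn⟩
    apply hu
    refine ⟨n, ?_⟩
    rw [div_eq_iff (by positivity)] at hn
    have : (u : ℝ) = ((k + 2 : ℕ) : ℤ) * n := by push_cast; linarith
    exact_mod_cast this
  have h3 : ∫ d, E (B k * u * S m d) * E (u / (k + 2)) * h d ∂P =
      E (u / (k + 2)) * ∫ d, E (B k * u * S m d) * h d ∂P := by
    rw [← integral_const_mul]; congr 1; ext d; ring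
  rw [h3] at h1
  by_contra h4
  exact h2 (mul_right_cancel₀ h4 (h1.trans (one_mul _).symm))

noncomputable def I (ξ : ℝ) (m : ℕ) : ℂ := ∫ d, E (ξ * T m d) ∂P

theorem integ {f : X → ℂ} (hf : Continuous f) : Integrable f P :=
  hf.integrable_of_hasCompactSupport (HasCompactSupport.of_compactSpace _)

theorem I_succ (ξ : ℝ) (m : ℕ) : ((m + 2 : ℕ) : ℂ) * I ξ m =
    (∑ i ∈ Finset.range (m + 2), E (ξ / (B m * (m + 2))) ^ i) * I ξ (m + 1) := by
  have h1 : ∀ c : ZMod (m + 2), I ξ m =
      ∫ d, E (ξ * ((c + d m).val / (B m * (m + 2)))) * E (ξ * T (m + 1) d) ∂P := by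
    intro c
    unfold I
    rw [← integral_add_left_eq_self _ (Pi.single m c)]
    congr 1
    ext d
    rw [T_succ m, T_single (Nat.lt_succ_self m), mul_add, E_add]
    unfold tm
    rw [Pi.add_apply, Pi.single_eq_same]
  have h2 : ((m + 2 : ℕ) : ℂ) * I ξ m = ∑ c : ZMod (m + 2), I ξ m := by simp [ZMod.card]
  rw [h2, Finset.sum_congr rfl fun c _ => h1 c, ← integral_finsetSum]
  · unfold I
    rw [← integral_const_mul]
    congr 1
    ext d
    rw [← Finset.sum_mul]
    congr 1
    refine (Equiv.sum_comp (Equiv.addRight (d m))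
      (fun c : ZMod (m + 2) => E (ξ * (c.val / (B m * (m + 2)))))).trans ?_
    rw [Finset.sum_range]
    apply Finset.sum_congr rfl
    intro c _
    rw [← E_nat_mul]
    congr 1
    show ξ * ((c.val : ℝ) / _) = (c.val : ℝ) * _
    ring
  · intro c _
    apply integ
    have : Continuous fun d : X => E (ξ * ((c + d m).val / (B m * (m + 2)))) :=
      (continuous_of_discreteTopology (f := fun z : ZMod (m + 2) =>
        E (ξ * ((c + z).val / (B m * (m + 2)))))).comp (continuous_apply m)
    fun_prop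

theorem B_ge (m : ℕ) : m < B m := by
  have := B_grow 0 m
  have h2 : m < 2 ^ m := Nat.lt_two_pow_self
  simp only [B, one_mul, zero_add] at this
  omega

theorem zero_set (ξ : ℝ) (h : I ξ 0 = 0) :
    ∃ j : ℕ, ∃ u : ℤ, ξ = B j * u ∧ ¬ ((j + 2 : ℕ) : ℤ) ∣ u := by
  by_contra! hc
  have h1 : ∀ m, I ξ m = 0 := by
    intro m
    induction m with
    | zero => exact h
    | succ m ih =>
      have h2 := I_succ ξ m
      rw [ih, mul_zero] at h2
      refine (mul_eq_zero.1 h2.symm).resolve_left fun h3 => ?_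
      have hB : (0 : ℝ) < B m := by exact_mod_cast B_pos m
      have h4 := mul_geom_sum (E (ξ / (B m * (m + 2)))) (m + 2)
      rw [h3, mul_zero, ← E_nat_mul, eq_comm, sub_eq_zero, E_one_iff] at h4
      obtain ⟨u, hu⟩ := h4
      have h5 : ξ = B m * u := by rw [← hu]; push_cast; field_simp
      obtain ⟨n, hn⟩ := hc m u h5
      have h6 : ξ / (B m * (m + 2)) = n := by rw [h5, hn]; push_cast; field_simp
      rw [h6, E_int] at h3
      simp only [one_pow, Finset.sum_const, Finset.card_range, nsmul_eq_mul, mul_one] at h3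
      exact absurd (Nat.cast_eq_zero.1 h3) (by omega)
  obtain ⟨m, hm⟩ := exists_nat_ge (28 * |ξ|)
  have hB : (m : ℝ) < B m := by exact_mod_cast B_ge m
  have hB0 : (0 : ℝ) < B m := by exact_mod_cast B_pos m
  have h2 : I ξ m - 1 = ∫ d, (E (ξ * T m d) - 1) ∂P := by
    rw [integral_sub (integ (by fun_prop)) (integrable_const _)]; simp [I]
  have h3 := norm_integral_le_of_norm_le_const (μ := P) (f := fun d => E (ξ * T m d) - 1)
    (C := 1 / 2) (ae_of_all _ fun d => by
      refine (E_sub_one _).trans ?_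
      rw [abs_mul, abs_of_nonneg (T_nonneg m d)]
      have a1 := mul_le_mul_of_nonneg_left (T_le m d) (abs_nonneg ξ)
      have a2 : |ξ| * (2 / B m) ≤ 1 / 14 := by
        rw [← mul_div_assoc, div_le_iff₀ hB0]; linarith
      linarith)
  rw [← h2, h1] at h3
  norm_num at h3

end Pool.Agent.H.MP_90e10c_an
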