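import Pool.Agent.H.MP_90e10c_an.A

set_option autoImplicit false
open scoped Classical ComplexConjugate BoundedContinuousFunction
open MeasureTheory Filter Topology

namespace Pool.Agent.H.MP_90e10c_an

def lam (m : ℕ) (c : X) : ℕ := ∑ k ∈ Finset.range m, B k * (c k).val

theorem lam_le (m : ℕ) (c : X) : lam m c * (m + 1) ≤ B m := by
  induction m with
  | zero => simp [lam]
  | succ m ih =>
    unfold lam at ih ⊢
    rw [Finset.sum_range_succ]
    have h1 := ZMod.val_lt (c m)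
    simp only [B]
    apply Nat.mul_le_mul_right
    have h2 : B m * (c m).val ≤ B m * (m + 1) := Nat.mul_le_mul_left _ (by omega)
    nlinarith

theorem diff {m : ℕ} {c c' : X} (h : ∃ k, k < m ∧ c k ≠ c' k) : ∃ k < m, ∃ u : ℤ,
    (lam m c : ℝ) - lam m c' = B k * u ∧ ¬ ((k + 2 : ℕ) : ℤ) ∣ u := by
  obtain ⟨hk, hne⟩ := Nat.find_spec h
  have hmin : ∀ j < Nat.find h, c j = c' j := fun j hj => by
    by_contra hc; exact Nat.find_min h hj ⟨hj.trans hk, hc⟩
  generalize Nat.find h = k at hk hne hmin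
  have h1 : ((B k * (k + 2) : ℕ) : ℤ) ∣ ∑ j ∈ (Finset.range m).erase k,
      (B j : ℤ) * (((c j).val : ℤ) - (c' j).val) := by
    apply Finset.dvd_sum
    intro j hj
    rcases lt_or_gt_of_ne (Finset.ne_of_mem_erase hj) with h2 | h2
    · rw [hmin j h2]; simp
    · exact (Int.natCast_dvd_natCast.2 (Bq_dvd h2)).mul_right _
  obtain ⟨w, hw⟩ := h1
  refine ⟨k, hk, (((c k).val : ℤ) - (c' k).val) + ((k + 2 : ℕ) : ℤ) * w, ?_, ?_⟩
  · have : (lam m c : ℤ) - lam m c' =
        B k * ((((c k).val : ℤ) - (c' k).val) + ((k + 2 : ℕ) : ℤ) * w) := by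
      unfold lam
      rw [Nat.cast_sum, Nat.cast_sum, ← Finset.sum_sub_distrib,
        ← Finset.add_sum_erase _ _ (Finset.mem_range.2 hk)]
      simp only [Nat.cast_mul, ← mul_sub] at hw ⊢
      rw [hw]; ring
    exact_mod_cast this
  · intro h2
    apply hne
    have h3 : ((k + 2 : ℕ) : ℤ) ∣ ((c k).val : ℤ) - (c' k).val :=
      (dvd_add_left (Dvd.intro _ rfl)).1 h2
    have := (ZMod.intCast_eq_intCast_iff_dvd_sub ((c' k).val) ((c k).val) (k + 2)).2 h3
    simpa using this.symm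

abbrev G (m : ℕ) : Type := (k : Fin m) → ZMod (k + 2)

def ex {m : ℕ} (c : G m) : X := fun k => if h : k < m then c ⟨k, h⟩ else 0

def res (m : ℕ) (d : X) : G m := fun k => d k

theorem ex_res {m k : ℕ} (h : k < m) (d : X) : ex (res m d) k = d k := by simp [ex, res, h]

theorem S_ex (m : ℕ) (d : X) : S m (ex (res m d)) = S m d :=
  Finset.sum_congr rfl fun k hk => by unfold tm; rw [ex_res (Finset.mem_range.1 hk)]

theorem lam_ex {m M : ℕ} (h : m ≤ M) (c : X) : lam M (ex (res m c)) = lam m c := by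
  unfold lam
  rw [← Finset.sum_subset (Finset.range_subset_range.2 h)]
  · exact Finset.sum_congr rfl fun k hk => by rw [ex_res (Finset.mem_range.1 hk)]
  · intro k _ hk
    simp [ex, mt Finset.mem_range.2 hk]

theorem ex_ne {m : ℕ} {c c' : G m} (h : c ≠ c') : ∃ k, k < m ∧ ex c k ≠ ex c' k := by
  obtain ⟨k, hk⟩ := Function.ne_iff.1 h
  exact ⟨k, k.2, by simpa [ex] using hk⟩

noncomputable def J : C(X, ℂ) →L[ℂ] Lp ℂ 2 P := ContinuousMap.toLp 2 P ℂ

theorem J_le (f : C(X, ℂ)) : ‖J f‖ ≤ ‖f‖ := by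
  have h : ‖J‖ ≤ 1 := by
    refine (ContinuousMap.toLp_norm_le P).trans ?_
    simp [measureUnivNNReal]
  exact (J.le_opNorm f).trans (mul_le_of_le_one_left (norm_nonneg _) h)

theorem J_inner (f g : C(X, ℂ)) : inner ℂ (J f) (J g) = ∫ d, g d * conj (f d) ∂P :=
  ContinuousMap.inner_toLp P f g

theorem J_one (f : C(X, ℂ)) (h : ∀ d, ‖f d‖ = 1) : ‖J f‖ = 1 := by
  have h1 := J_inner f f
  simp only [Complex.mul_conj', h, inner_self_eq_norm_sq_to_K] at h1
  simp only [Complex.ofReal_one, one_pow, integral_const, probReal_univ, one_smul] at h1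
  have h2 : ‖J f‖ ^ 2 = 1 := by
    apply Complex.ofReal_injective
    push_cast
    exact h1
  exact (pow_eq_one_iff_of_nonneg (norm_nonneg _) two_ne_zero).1 h2

noncomputable def ph (m : ℕ) (x : ℝ) : C(X, ℂ) := ⟨fun d => E (x * S m d), by fun_prop⟩

noncomputable def tl (m : ℕ) (x : ℝ) : C(X, ℂ) := ⟨fun d => E (x * T m d), by fun_prop⟩

theorem tl_zero (m : ℕ) (x : ℝ) : tl 0 x = ph m x * tl m x := by
  ext d
  show E (x * T 0 d) = E (x * S m d) * E (x * T m d)
  rw [T_zero m, mul_add, E_add]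

theorem orth {m : ℕ} {c c' : X} (h : ∃ k, k < m ∧ c k ≠ c' k) (g g' : C(X, ℂ))
    (hg : ∀ k < m, ∀ d, g (Pi.single k 1 + d) = g d)
    (hg' : ∀ k < m, ∀ d, g' (Pi.single k 1 + d) = g' d) :
    inner ℂ (J (ph m (lam m c') * g')) (J (ph m (lam m c) * g)) = 0 := by
  obtain ⟨k, hk, u, h1, h2⟩ := diff h
  rw [J_inner, ← vanish hk u h2 (fun d => g d * conj (g' d))
    (fun d => by simp only [hg k hk, hg' k hk])]
  congr 1
  ext d
  show E (_ * S m d) * g d * conj (E (_ * S m d) * g' d) = _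
  rw [map_mul, E_conj, ← h1, sub_mul, sub_eq_add_neg, E_add]
  ring

theorem pyth {ι H : Type*} [Fintype ι] [NormedAddCommGroup H] [InnerProductSpace ℂ H]
    (w : ι → H) (h : ∀ i j, i ≠ j → inner ℂ (w i) (w j) = 0) :
    ‖∑ i, w i‖ ^ 2 = ∑ i, ‖w i‖ ^ 2 := by
  have : inner ℂ (∑ i, w i) (∑ i, w i) = ∑ i, inner ℂ (w i) (w i) := by
    rw [sum_inner]
    apply Finset.sum_congr rfl
    intro i _
    rw [inner_sum, Finset.sum_eq_single i (fun j _ hj => h i j hj.symm) (by simp)]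
  simp only [inner_self_eq_norm_sq_to_K] at this
  exact_mod_cast this

theorem nsum {m : ℕ} (a : G m → ℂ) (g : G m → C(X, ℂ))
    (hg : ∀ c, ∀ k < m, ∀ d, g c (Pi.single k 1 + d) = g c d) :
    ‖J (∑ c, a c • (ph m (lam m (ex c)) * g c))‖ ^ 2 =
      ∑ c, ‖a c‖ ^ 2 * ‖J (ph m (lam m (ex c)) * g c)‖ ^ 2 := by
  rw [map_sum, pyth]
  · simp only [map_smul, norm_smul, mul_pow]
  · intro i j hij
    rw [map_smul, map_smul, inner_smul_left, inner_smul_right,
      orth (ex_ne hij.symm) _ _ (hg j) (hg i), mul_zero, mul_zero]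

theorem nsum1 {m : ℕ} (a : G m → ℂ) :
    ‖J (∑ c, a c • ph m (lam m (ex c)))‖ ^ 2 = ∑ c, ‖a c‖ ^ 2 := by
  have := nsum a (fun _ => 1) (fun _ _ _ _ => rfl)
  simp only [mul_one] at this
  rw [this]
  exact Finset.sum_congr rfl fun c _ => by rw [J_one _ fun d => E_norm _]; simp

theorem rep (m : ℕ) (f : ℝ → ℂ) : ∃ a : G m → ℂ, ∀ d,
    f (S m d) = (∑ c, a c • ph m (lam m (ex c))) d := by
  let L : (G m → ℂ) →ₗ[ℂ] (G m → ℂ) :=
    Matrix.toLin' (Matrix.of fun c' c => E (lam m (ex c) * S m (ex c')))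
  have hL : ∀ a d, L a (res m d) = (∑ c, a c • ph m (lam m (ex c))) d := by
    intro a d
    simp only [L, Matrix.toLin'_apply, Matrix.mulVec, dotProduct, Matrix.of_apply, S_ex,
      ContinuousMap.coe_sum, Finset.sum_apply, ContinuousMap.coe_smul, Pi.smul_apply, smul_eq_mul]
    exact Finset.sum_congr rfl fun c _ => mul_comm _ _
  have hi : Function.Injective L := by
    rw [injective_iff_map_eq_zero]
    intro a ha
    have h1 : ∑ c, a c • ph m (lam m (ex c)) = 0 := by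
      ext d; rw [← hL, ha]; rfl
    have h2 := nsum1 a
    rw [h1, map_zero, norm_zero, zero_pow two_ne_zero, eq_comm,
      Finset.sum_eq_zero_iff_of_nonneg fun _ _ => sq_nonneg _] at h2
    ext c
    simpa using h2 c (Finset.mem_univ _)
  obtain ⟨a, ha⟩ := LinearMap.injective_iff_surjective.1 hi fun c => f (S m (ex c))
  exact ⟨a, fun d => by rw [← hL, ha]; simp only [S_ex]⟩

theorem S_nonneg (m : ℕ) (d : X) : 0 ≤ S m d := Finset.sum_nonneg fun _ _ => tm_nonneg _ _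

theorem T0_le (d : X) : T 0 d ≤ 2 := by simpa [B] using T_le 0 d

noncomputable def cp (f : ℝ →ᵇ ℂ) (g : X → ℝ) (hg : Continuous g) : C(X, ℂ) :=
  ⟨fun d => f (g d), f.continuous.comp hg⟩

theorem approx (f : ℝ →ᵇ ℂ) {ε : ℝ} (hε : 0 < ε) : ∃ m, ∃ a : G m → ℂ,
    ‖J (cp f (T 0) (T_cont 0)) - ∑ c, a c • J (tl 0 (lam m (ex c)))‖ ≤ 2 * ε := by
  obtain ⟨δ, hδ, hu⟩ := Metric.uniformContinuousOn_iff.1
    ((isCompact_Icc (a := (0 : ℝ)) (b := 2)).uniformContinuousOn_of_continuous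
      f.continuous.continuousOn) ε hε
  obtain ⟨m, hm⟩ := exists_nat_gt (max (2 / δ) (14 * ‖f‖ / ε))
  have hm1 : 2 / δ < m := (le_max_left _ _).trans_lt hm
  have hm2 : 14 * ‖f‖ / ε < m := (le_max_right _ _).trans_lt hm
  have hB : (m : ℝ) < B m := by exact_mod_cast B_ge m
  have hB0 : (0 : ℝ) < B m := by exact_mod_cast B_pos m
  obtain ⟨a, ha⟩ := rep m f
  refine ⟨m, a, ?_⟩
  have e0 : cp f (S m) (S_cont m) = ∑ c, a c • ph m (lam m (ex c)) := by ext d; exact ha d
  have e1 : J (cp f (T 0) (T_cont 0)) - ∑ c, a c • J (tl 0 (lam m (ex c))) =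
      J (cp f (T 0) (T_cont 0) - cp f (S m) (S_cont m)) +
        J (∑ c, a c • (ph m (lam m (ex c)) * (1 - tl m (lam m (ex c))))) := by
    rw [e0]
    simp only [mul_sub, mul_one, ← tl_zero, smul_sub, Finset.sum_sub_distrib, map_sub, map_sum,
      map_smul]
    abel
  have e2 : ‖J (cp f (T 0) (T_cont 0) - cp f (S m) (S_cont m))‖ ≤ ε := by
    refine (J_le _).trans ((ContinuousMap.norm_le _ hε.le).2 fun d => ?_)
    have a1 := T_zero m d
    have a2 := T_nonneg m d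
    have a3 := T0_le d
    have a4 := S_nonneg m d
    have a5 := T_le m d
    have a6 : 2 / (B m : ℝ) < δ := by
      rw [div_lt_iff₀ hB0]; rw [div_lt_iff₀ hδ] at hm1; nlinarith
    have := hu (T 0 d) ⟨by linarith, a3⟩ (S m d) ⟨a4, by linarith⟩
      (by rw [Real.dist_eq, abs_lt]; constructor <;> linarith)
    rw [dist_eq_norm] at this
    exact this.le
  have e3 : ∀ c : X, ‖J (ph m (lam m c) * (1 - tl m (lam m c)))‖ ≤ 14 / (m + 1) := by
    intro c
    refine (J_le _).trans ((ContinuousMap.norm_le _ (by positivity)).2 fun d => ?_)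
    show ‖E _ * (1 - E _)‖ ≤ _
    rw [norm_mul, E_norm, one_mul, norm_sub_rev]
    refine (E_sub_one _).trans ?_
    have a1 : (lam m c : ℝ) * (m + 1) ≤ B m := by exact_mod_cast lam_le m c
    have a2 := T_le m d
    have a3 := T_nonneg m d
    rw [abs_of_nonneg (by positivity), le_div_iff₀ (by positivity)]
    rw [le_div_iff₀ hB0] at a2
    nlinarith [mul_le_mul_of_nonneg_left a1 a3]
  have e4 : ‖J (∑ c, a c • (ph m (lam m (ex c)) * (1 - tl m (lam m (ex c)))))‖ ≤ ε := by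
    have b1 := nsum a (fun c => 1 - tl m (lam m (ex c))) (fun c k hk d => by
      show 1 - E (_ * T m _) = 1 - E (_ * T m _)
      rw [T_single hk])
    have b2 := nsum1 a
    rw [← e0] at b2
    have b3 : ‖J (cp f (S m) (S_cont m))‖ ≤ ‖f‖ :=
      (J_le _).trans ((ContinuousMap.norm_le _ (norm_nonneg _)).2 fun d => f.norm_coe_le_norm _)
    have b4 : 14 / (m + 1) * ‖f‖ ≤ ε := by
      rw [div_lt_iff₀ hε] at hm2
      rw [div_mul_eq_mul_div, div_le_iff₀ (by positivity)]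
      nlinarith
    refine le_trans (abs_le_of_sq_le_sq' ?_ (by positivity)).2 b4
    rw [b1, mul_pow, mul_comm]
    calc _ ≤ ∑ c, ‖a c‖ ^ 2 * (14 / (m + 1) : ℝ) ^ 2 := Finset.sum_le_sum fun c _ =>
          mul_le_mul_of_nonneg_left (pow_le_pow_left₀ (norm_nonneg _) (e3 _) 2) (sq_nonneg _)
      _ ≤ _ := by
        rw [← Finset.sum_mul, ← b2]
        exact mul_le_mul_of_nonneg_right (pow_le_pow_left₀ (norm_nonneg _) b3 2) (sq_nonneg _)
  rw [e1]
  exact (norm_add_le _ _).trans (by linarith)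

end Pool.Agent.H.MP_90e10c_an
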