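import Pool.Agent.H.MP_90e10c_an.B

set_option autoImplicit false
open scoped Classical ComplexConjugate BoundedContinuousFunction Pointwise ENNReal
open MeasureTheory Filter Topology

namespace Pool.Agent.H.MP_90e10c_an

noncomputable def mu : Measure ℝ := P.map (T 0)

theorem mp : MeasurePreserving (T 0) P mu := ⟨(T_cont 0).measurable, rfl⟩

instance : IsProbabilityMeasure mu :=
  Measure.isProbabilityMeasure_map (T_cont 0).measurable.aemeasurable

def La : Set ℝ := {x | ∃ m c, x = (lam m c : ℕ)}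

theorem La_count : La.Countable :=
  (Set.countable_range (Nat.cast : ℕ → ℝ)).mono (by
    rintro _ ⟨m, c, rfl⟩; exact ⟨_, rfl⟩)

theorem K_cpt : IsCompact (Set.range (T 0)) := isCompact_range (T_cont 0)

theorem K_ae : mu (Set.range (T 0))ᶜ = 0 := by
  rw [← mp.measure_preimage K_cpt.measurableSet.compl.nullMeasurableSet]
  simp

theorem supp : IsCompact mu.support :=
  K_cpt.of_isClosed_subset Measure.isClosed_support
    (Measure.support_subset_of_isClosed K_cpt.isClosed K_ae)

theorem card_G (m : ℕ) : Fintype.card (G m) * (m + 1) ≤ B m := by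
  have h : ∀ m, B m = (∏ k ∈ Finset.range m, (k + 2)) ^ 2 ∧
      m + 1 ≤ ∏ k ∈ Finset.range m, (k + 2) := by
    intro m
    induction m with
    | zero => simp [B]
    | succ m ih =>
      rw [Finset.prod_range_succ]
      refine ⟨by simp only [B]; rw [ih.1]; ring, ?_⟩
      nlinarith [ih.2]
  have h2 : Fintype.card (G m) = ∏ k ∈ Finset.range m, (k + 2) := by
    rw [Fintype.card_pi, Finset.prod_range]
    simp [ZMod.card]
  rw [h2, (h m).1, sq]
  exact Nat.mul_le_mul_left _ (h m).2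

theorem small {x : ℝ≥0∞} (h : ∀ m : ℕ, x * (m + 1) ≤ 2) : x = 0 := by
  by_contra hx
  obtain ⟨n, hn⟩ := ENNReal.exists_nat_mul_gt hx (b := 2) (by simp)
  have := h n
  rw [mul_add, mul_comm] at this
  exact absurd (le_self_add.trans this) hn.not_ge

theorem K_vol : volume (Set.range (T 0)) = 0 := by
  apply small
  intro m
  have hB0 : (0 : ℝ) < B m := by exact_mod_cast B_pos m
  have h1 : Set.range (T 0) ⊆ ⋃ c : G m, Set.Icc (S m (ex c)) (S m (ex c) + 2 / B m) := by
    rintro _ ⟨d, rfl⟩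
    refine Set.mem_iUnion.2 ⟨res m d, ?_⟩
    rw [S_ex, T_zero m]
    exact ⟨by linarith [T_nonneg m d], by linarith [T_le m d]⟩
  have h2 := (measure_mono (μ := volume) h1).trans (measure_iUnion_fintype_le _ _)
  simp only [Real.volume_Icc, add_sub_cancel_left, Finset.sum_const, Finset.card_univ,
    nsmul_eq_mul] at h2
  refine (mul_le_mul_left h2 _).trans ?_
  have h3 : (Fintype.card (G m) : ℝ) * (m + 1) ≤ B m := by exact_mod_cast card_G m
  have h4 : (Fintype.card (G m) : ℝ≥0∞) * ENNReal.ofReal (2 / B m) * (m + 1) =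
      ENNReal.ofReal (Fintype.card (G m) * (2 / B m) * (m + 1)) := by
    rw [ENNReal.ofReal_mul (by positivity), ENNReal.ofReal_mul (by positivity),
      ENNReal.ofReal_natCast, ENNReal.ofReal_add (by positivity) (by positivity)]
    simp
  rw [h4, ← ENNReal.ofReal_ofNat]
  apply ENNReal.ofReal_le_ofReal
  rw [mul_right_comm, ← mul_div_assoc, div_le_iff₀ hB0]
  linarith

theorem sing : mu ⟂ₘ volume :=
  ⟨(Set.range (T 0))ᶜ, K_cpt.measurableSet.compl, K_ae, by rw [compl_compl]; exact K_vol⟩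

theorem sep {m : ℕ} {c c' : ZMod (m + 2)} {d : X}
    (h3 : T 0 (Pi.single m c + d) = T 0 (Pi.single m c' + d)) : c = c' := by
  rw [T_zero (m + 1), T_zero (m + 1), T_single (Nat.lt_succ_self m),
    T_single (Nat.lt_succ_self m), S_single (Nat.lt_succ_self m), S_single (Nat.lt_succ_self m),
    add_left_inj, add_right_inj, sub_left_inj] at h3
  unfold tm at h3
  have hB0 : (0 : ℝ) < B m := by exact_mod_cast B_pos m
  rw [div_left_inj' (by positivity), Nat.cast_inj, Pi.add_apply, Pi.add_apply, Pi.single_eq_same,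
    Pi.single_eq_same] at h3
  exact add_right_cancel (ZMod.val_injective _ h3)

theorem noat (x : ℝ) : mu {x} = 0 := by
  refine small fun m => ?_
  have hm : MeasurableSet (T 0 ⁻¹' {x}) := (T_cont 0).measurable (measurableSet_singleton x)
  have h0 : ∀ a : X, MeasurableSet ((fun d => a + d) ⁻¹' (T 0 ⁻¹' {x})) :=
    fun a => measurable_const_add a hm
  have h1 := sum_measure_le_measure_univ (μ := P) (s := Finset.univ)
    (t := fun c : ZMod (m + 2) => (fun d : X => (Pi.single m c : X) + d) ⁻¹' (T 0 ⁻¹' {x}))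
    (fun c _ => (h0 _).nullMeasurableSet) (fun c _ c' _ h => by
      refine Disjoint.aedisjoint (Set.disjoint_left.2 fun d h1 h2 => h ?_)
      rw [Set.mem_preimage, Set.mem_preimage, Set.mem_singleton_iff] at h1 h2
      exact sep (h1.trans h2.symm))
  rw [Finset.sum_congr rfl fun c _ => measure_preimage_add P _ _, Finset.sum_const,
    Finset.card_univ, ZMod.card, nsmul_eq_mul, measure_univ] at h1
  rw [← mp.measure_preimage (measurableSet_singleton x).nullMeasurableSet, mul_comm]
  refine le_trans (mul_le_mul_left ?_ _) (h1.trans one_le_two)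
  exact_mod_cast Nat.le_succ _

noncomputable def eb (l : ℝ) : ℝ →ᵇ ℂ :=
  BoundedContinuousFunction.ofNormedAddCommGroup (fun x => E (l * x)) (by fun_prop) 1
    fun _ => (E_norm _).le

noncomputable def Q : (ℝ →ᵇ ℂ) →L[ℂ] Lp ℂ 2 mu := BoundedContinuousFunction.toLp 2 mu ℂ

noncomputable def U : Lp ℂ 2 mu →ₗᵢ[ℂ] Lp ℂ 2 P := Lp.compMeasurePreservingₗᵢ ℂ (T 0) mp

theorem UQ (f : ℝ →ᵇ ℂ) : U (Q f) = J (cp f (T 0) (T_cont 0)) := by
  apply Lp.ext
  refine (Lp.coeFn_compMeasurePreserving _ mp).trans ?_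
  refine (mp.quasiMeasurePreserving.ae_eq_comp
    (BoundedContinuousFunction.coeFn_toLp 2 mu ℂ f)).trans ?_
  exact (ContinuousMap.coeFn_toLp (p := 2) (𝕜 := ℂ) P (cp f (T 0) (T_cont 0))).symm

theorem Ue (l : ℝ) : U (Q (eb l)) = J (tl 0 l) := UQ _

theorem e_ae (l : ℝ) : Q (eb l) =ᵐ[mu]
    fun x : ℝ => Complex.exp (-2 * Real.pi * Complex.I * l * x) := by
  refine (BoundedContinuousFunction.coeFn_toLp 2 mu ℂ _).trans (Eventually.of_forall fun x => ?_)
  show E (l * x) = _
  unfold E; congr 1; push_cast; ring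

theorem e_norm (l : ℝ) : ‖Q (eb l)‖ = 1 := by
  rw [← U.norm_map, Ue, J_one _ fun d => E_norm _]

theorem e_inner (x y : ℝ) : inner ℂ (Q (eb x)) (Q (eb y)) = I (y - x) 0 := by
  rw [← U.inner_map_map, Ue, Ue, J_inner]
  unfold I
  congr 1
  ext d
  show E (y * T 0 d) * conj (E (x * T 0 d)) = _
  rw [E_conj, ← E_add]; congr 1; ring

theorem e_orth {x y : ℝ} (hx : x ∈ La) (hy : y ∈ La) (h : x ≠ y) :
    inner ℂ (Q (eb x)) (Q (eb y)) = 0 := by
  obtain ⟨m, c, rfl⟩ := hx
  obtain ⟨m', c', rfl⟩ := hy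
  rw [← lam_ex (le_max_left m m') c, ← lam_ex (le_max_right m m') c'] at h ⊢
  generalize ex (res m c) = a at h ⊢
  generalize ex (res m' c') = b at h ⊢
  generalize max m m' = M at h ⊢
  rw [← U.inner_map_map, Ue, Ue, tl_zero M, tl_zero M]
  have hg : ∀ x : ℝ, ∀ k < M, ∀ d, tl M x (Pi.single k 1 + d) = tl M x d := fun x k hk d => by
    show E (_ * T M _) = E (_ * T M _)
    rw [T_single hk]
  refine orth ?_ _ _ (hg _) (hg _)
  by_contra! hc
  apply h
  congr 1
  exact Finset.sum_congr rfl fun k hk => by rw [hc k (Finset.mem_range.1 hk)]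

theorem e_on : Orthonormal ℂ fun l : La => Q (eb l) :=
  ⟨fun _ => e_norm _, fun i j h => e_orth i.2 j.2 fun h' => h (Subtype.ext h')⟩

theorem e_dense :
    (Submodule.span ℂ (Set.range fun l : La => Q (eb l))).topologicalClosure = ⊤ := by
  rw [eq_top_iff]
  intro g hg
  clear hg
  refine (BoundedContinuousFunction.toLp_denseRange ℂ mu ℂ (p := 2) (by simp)).induction_on g
    (Submodule.isClosed_topologicalClosure _) fun f => ?_
  refine Metric.mem_closure_iff.2 fun ε hε => ?_
  obtain ⟨m, a, h⟩ := approx f (ε := ε / 3) (by positivity)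
  refine ⟨∑ c, a c • Q (eb (lam m (ex c))), Submodule.sum_mem _ fun c _ =>
    Submodule.smul_mem _ _ (Submodule.subset_span ⟨⟨_, m, ex c, rfl⟩, rfl⟩), ?_⟩
  rw [dist_eq_norm, ← U.norm_map, map_sub, map_sum]
  simp only [map_smul, Ue]
  rw [← UQ] at h
  exact h.trans_lt (by linarith)

theorem B_mem (k : ℕ) : (B k : ℝ) ∈ La := by
  refine ⟨k + 1, Pi.single k 1, ?_⟩
  unfold lam
  rw [Finset.sum_range_succ, Finset.sum_eq_zero]
  · rw [Pi.single_eq_same, ZMod.val_one'' (by omega)]; simp
  · intro j hj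
    rw [Pi.single_eq_of_ne (Finset.mem_range.1 hj).ne]; simp

theorem zero_mem : (0 : ℝ) ∈ La := ⟨0, 0, by simp [lam]⟩

theorem arith {t : ℝ} (h : ∀ k, I (t * B k) 0 = 0) : t = 1 ∨ t = -1 := by
  obtain ⟨j, u, h1, h0⟩ := zero_set _ (h 0)
  obtain ⟨n, rfl⟩ : ∃ n : ℤ, t = n := ⟨B j * u, by simpa [B] using h1⟩
  have hn : n ≠ 0 := by
    rintro rfl
    have : (B j : ℝ) ≠ 0 := by exact_mod_cast (B_pos j).ne'
    have h2 : u = 0 := by simpa [this] using h1
    simp [h2] at h0
  by_contra! hc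
  have h2 : n ≠ 1 := fun h => hc.1 (by simp [h])
  have h3 : n ≠ -1 := fun h => hc.2 (by simp [h])
  obtain ⟨k, hk⟩ : ∃ k : ℕ, n.natAbs = k + 2 := ⟨n.natAbs - 2, by omega⟩
  obtain ⟨i, w, h4, h5⟩ := zero_set _ (h k)
  have h6 : n * B k = B i * w := by exact_mod_cast h4
  have hBi : (B i : ℤ) ≠ 0 := by exact_mod_cast (B_pos i).ne'
  have hBk : (B k : ℤ) ≠ 0 := by exact_mod_cast (B_pos k).ne'
  rcases lt_trichotomy i k with h7 | rfl | h7
  · apply h5
    have := (Int.natCast_dvd_natCast.2 (Bq_dvd h7)).mul_left n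
    rw [h6, Nat.cast_mul] at this
    exact (mul_dvd_mul_iff_left hBi).1 this
  · apply h5
    rw [mul_comm] at h6
    rw [← mul_left_cancel₀ hBi h6, ← hk]
    exact Int.natAbs_dvd.2 dvd_rfl
  · have := (Int.natCast_dvd_natCast.2 (B_dvd (Nat.succ_le_of_lt h7))).mul_right w
    rw [← h6] at this
    simp only [B] at this
    rw [mul_assoc, Nat.cast_mul, mul_comm n] at this
    have h8 := Int.natCast_dvd.1 ((mul_dvd_mul_iff_left hBk).1 this)
    rw [hk] at h8
    have := Nat.le_of_dvd (by omega) h8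
    nlinarith

theorem only {t : ℝ} (h1 : Orthonormal ℂ fun l : (t • La : Set ℝ) => Q (eb l))
    (h2 : (Submodule.span ℂ (Set.range fun l : (t • La : Set ℝ) => Q (eb l))).topologicalClosure
      = ⊤) : t = 1 ∨ t = -1 := by
  by_cases ht : t = 0
  · exfalso
    subst ht
    rw [Submodule.topologicalClosure_eq_top_iff] at h2
    have h3 : Q (eb (B 0)) ∈ (Submodule.span ℂ
        (Set.range fun l : ((0 : ℝ) • La : Set ℝ) => Q (eb l)))ᗮ := by
      rw [Submodule.mem_orthogonal]
      intro u hu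
      induction hu using Submodule.span_induction with
      | mem x hx =>
        obtain ⟨⟨_, y, -, rfl⟩, rfl⟩ := hx
        simp only [zero_smul]
        exact e_orth zero_mem (B_mem 0) (by simp [B])
      | zero => simp
      | add x y _ _ hx hy => rw [inner_add_left, hx, hy, add_zero]
      | smul a x _ hx => rw [inner_smul_left, hx, mul_zero]
    rw [h2, Submodule.mem_bot] at h3
    have := e_norm (B 0)
    rw [h3] at this
    simp at this
  · apply arith
    intro k
    have hB : (B k : ℝ) ≠ 0 := by exact_mod_cast (B_pos k).ne'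
    have := h1.2 (i := ⟨t • (0 : ℝ), Set.smul_mem_smul_set zero_mem⟩)
      (j := ⟨t • (B k : ℝ), Set.smul_mem_smul_set (B_mem k)⟩) (by simp [ht, hB])
    simpa [e_inner] using this

end Pool.Agent.H.MP_90e10c_an
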